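import Pool.Agent.H70.CP1

open FirstOrder FirstOrder.Language

namespace Pool.Agent.Results.MP_486437_lc.NoExtension
open Pool.Agent.H70.CP

instance : Countable LPA.Symbols := by
  have h1 : ∀ n, Countable (AF n) := by
    intro n
    have : Function.Injective (fun f : AF n => (match n, f with
      | _, AF.zero => 0 | _, AF.one => 1 | _, AF.add => 2 | _, AF.mul => 3 : ℕ)) := by
      intro a b h
      cases a <;> cases b <;> simp_all
    exact this.countable
  have h2 : ∀ n, Countable (AR n) := by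
    intro n
    have : Subsingleton (AR n) := ⟨fun a b => by cases a; cases b; rfl⟩
    infer_instance
  have h3 : Countable (Σ n, AF n) := inferInstance
  have h4 : Countable (Σ n, AR n) := inferInstance
  exact inferInstanceAs (Countable ((Σ n, AF n) ⊕ (Σ n, AR n)))

section M
variable {M : Type} [CommSemiring M] [LinearOrder M] [IsStrictOrderedRing M]

lemma lt_succ (h : IsPA M) {x y : M} (hxy : x < y) : x + 1 ≤ y := by
  obtain ⟨z, rfl⟩ := h.sub x y hxy
  have : 0 < z := by
    rcases (h.nonneg z).lt_or_eq with h0 | h0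
    · exact h0
    · subst h0; simp at hxy
  have := h.discrete z this
  gcongr

lemma std_of_le (h : IsPA M) (k : ℕ) : ∀ x : M, x ≤ k → ∃ j : ℕ, x = j := by
  induction k with
  | zero => intro x hx; exact ⟨0, le_antisymm hx (by simpa using h.nonneg x)⟩
  | succ k ih =>
    intro x hx
    by_cases hk : x ≤ k
    · exact ih x hk
    · refine ⟨k + 1, le_antisymm hx ?_⟩
      simpa using lt_succ h (not_le.1 hk)

lemma lt_ns (h : IsPA M) {x : M} (hx : ∀ j : ℕ, x ≠ j) (k : ℕ) : (k : M) < x := by
  by_contra hk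
  obtain ⟨j, hj⟩ := std_of_le h k x (not_lt.1 hk)
  exact hx j hj

lemma ns_of_le (h : IsPA M) {x y : M} (hx : ∀ j : ℕ, x ≠ j) (hxy : x ≤ y) : ∀ j : ℕ, y ≠ j := by
  intro j hj
  obtain ⟨i, hi⟩ := std_of_le h j x (hj ▸ hxy)
  exact hx i hi

lemma coded_std (h : IsPA M) (X : Set M) (c : ℕ) : Coded (S := arith M) X (c : M) := by
  classical
  let l : List ℕ := List.ofFn (fun i : Fin c => if ((i : ℕ) : M) ∈ X then 0 else 1)
  refine ⟨((Nat.unbeta l).unpair.1 : ℕ), ((Nat.unbeta l).unpair.2 : ℕ), fun i hi => ?_⟩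
  have hi' : i < (c : M) := hi
  obtain ⟨j, rfl⟩ := std_of_le h c i hi'.le
  have hj : j < c := by exact_mod_cast hi'
  have hb := Nat.beta_unbeta_coe l ⟨j, by simpa [l] using hj⟩
  simp only [Nat.beta, l, Fin.getElem_fin, List.getElem_ofFn] at hb
  set d := (Nat.unbeta (List.ofFn (fun i : Fin c => if ((i : ℕ) : M) ∈ X then 0 else 1))).unpair.1
  set e := (Nat.unbeta (List.ofFn (fun i : Fin c => if ((i : ℕ) : M) ∈ X then 0 else 1))).unpair.2
  have : th (S := arith M) (j : M) (d : M) (e : M) ↔ d % ((j + 1) * e + 1) = 0 := by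
    show (∃ q : M, q * (((j : M) + 1) * e + 1) = d) ↔ _
    rw [← Nat.dvd_iff_mod_eq_zero]
    constructor
    · rintro ⟨q, hq⟩
      have hle : q ≤ (d : M) := by
        rw [← hq]
        have h1 : (1 : M) ≤ ((j : M) + 1) * e + 1 := le_add_of_nonneg_left (by positivity)
        exact le_mul_of_one_le_right (h.nonneg q) h1
      obtain ⟨r, rfl⟩ := std_of_le h d q hle
      refine ⟨r, ?_⟩
      have : ((r * ((j + 1) * e + 1) : ℕ) : M) = (d : M) := by push_cast; exact hq
      have := Nat.cast_injective this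
      rw [← this]; ring
    · rintro ⟨r, hr⟩
      refine ⟨r, ?_⟩
      rw [hr]; push_cast; ring
  rw [this, hb]
  by_cases hX : (j : M) ∈ X <;> simp [hX]

/-- a spread set contains a tuple avoiding any finite set -/
lemma avoid {α : Type} {n : ℕ} {B : Set (Fin n → α)} (hB : Spread B) {F : Set α} (hF : F.Finite) :
    ∃ b ∈ B, ∀ i, b i ∉ F := by
  have : {b ∈ B | ∃ i, b i ∈ F}.Finite := by
    have h1 : ∀ x ∈ F, {b ∈ B | x ∈ Set.range b}.Finite := by
      intro x _
      apply Set.Subsingleton.finite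
      intro b hb c hc
      by_contra hbc
      exact Set.disjoint_left.1 (hB.2.2 b hb.1 c hc.1 hbc) hb.2 hc.2
    refine (hF.biUnion h1).subset ?_
    rintro b ⟨hb, i, hi⟩
    simp only [Set.mem_iUnion]
    exact ⟨b i, hi, hb, i, rfl⟩
  obtain ⟨b, hb, hb'⟩ := (hB.1.diff this).nonempty
  exact ⟨b, hb, fun i hi => hb' ⟨hb, i, hi⟩⟩

/-- overspill -/
lemma overspill (h : IsPA M) {a : M} (ha : ∀ j : ℕ, a ≠ j) {n : ℕ} (hn : 1 ≤ n)
    {D : Set (Fin n → M)} (hD : @Set.Definable M Set.univ LPA (arith M) (Fin n) D)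
    {B : Set (Fin n → M)} (hBD : B ⊆ D) (hB : Spread B) {F : Set M} (hF : F.Finite) :
    ∃ b ∈ D, Function.Injective b ∧ ∀ i, b i ∉ F ∧ ∀ j : ℕ, b i ≠ j := by
  letI := arith M
  let E : Set M := {c | ∃ b ∈ D, Function.Injective b ∧ ∀ i, b i ∉ F ∧ c < b i}
  have hE : Set.univ.Definable₁ LPA E := by
    let T : Set (Fin 1 ⊕ Fin n → M) := ((fun g => g ∘ Sum.inr) ⁻¹' D ∩
      ⋂ p : {p : Fin n × Fin n // p.1 ≠ p.2}, {g | g (Sum.inr p.1.1) = g (Sum.inr p.1.2)}ᶜ) ∩
      ⋂ i : Fin n, ((⋂ x : F, {g | g (Sum.inr i) = x.1}ᶜ) ∩ {g | g (Sum.inl 0) < g (Sum.inr i)})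
    haveI := hF.to_subtype
    have hT : Set.univ.Definable LPA T := by
      refine ((hD.preimage_comp _).inter (Set.definable_iInter_of_finite fun p =>
        Set.Definable.compl ?_)).inter (Set.definable_iInter_of_finite fun i =>
        (Set.definable_iInter_of_finite fun x => Set.Definable.compl ?_).inter ?_)
      · rw [Set.definable_iff_exists_formula_sum]
        exact ⟨Term.equal (Term.var (Sum.inr (Sum.inr p.1.1))) (Term.var (Sum.inr (Sum.inr p.1.2))),
          by ext v; simp⟩
      · rw [Set.definable_iff_exists_formula_sum]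
        exact ⟨Term.equal (Term.var (Sum.inr (Sum.inr i))) (Term.var (Sum.inl ⟨x.1, trivial⟩)),
          by ext v; simp⟩
      · rw [Set.definable_iff_exists_formula_sum]
        refine ⟨fl (Term.var (Sum.inr (Sum.inl 0))) (Term.var (Sum.inr (Sum.inr i))), ?_⟩
        ext v
        simp only [Set.mem_setOf_eq, r_fl]
        rfl
    have := hT.exists_of_finite
    unfold Set.Definable₁
    convert this using 3 with v
    simp only [E, T, Set.mem_setOf_eq, Set.mem_inter_iff, Set.mem_preimage, Set.mem_iInter,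
      Set.mem_compl_iff, Sum.elim_comp_inr, Sum.elim_inr, Sum.elim_inl]
    constructor
    · rintro ⟨b, hb, hi, hh⟩
      exact ⟨b, ⟨hb, fun p hp => p.2 (hi hp)⟩, fun i =>
        ⟨fun x hx => (hh i).1 (hx ▸ x.2), (hh i).2⟩⟩
    · rintro ⟨b, ⟨hb, hi⟩, hh⟩
      refine ⟨b, hb, fun i j hij => ?_, fun i => ⟨fun hx => (hh i).1 ⟨_, hx⟩ rfl, (hh i).2⟩⟩
      by_contra hne
      exact hi ⟨(i, j), hne⟩ hij
  have hstd : ∀ k : ℕ, (k : M) ∈ E := by
    intro k
    have hfin : (F ∪ (fun j : ℕ => (j : M)) '' {j | j ≤ k}).Finite :=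
      hF.union ((Set.finite_le_nat k).image _)
    obtain ⟨b, hb, hbF⟩ := avoid hB hfin
    refine ⟨b, hBD hb, hB.2.1 b hb, fun i => ⟨fun hh => hbF i (Or.inl hh), ?_⟩⟩
    by_contra hlt
    obtain ⟨j, hj⟩ := std_of_le h k _ (not_lt.1 hlt)
    refine hbF i (Or.inr ⟨j, ?_, hj.symm⟩)
    have : (j : M) ≤ k := hj ▸ not_lt.1 hlt
    exact_mod_cast this
  have : ∃ c ∈ E, ∀ j : ℕ, c ≠ j := by
    by_contra hne
    push Not at hne
    have hall := h.ind E hE (by simpa using hstd 0) (fun x hx => by
      obtain ⟨j, rfl⟩ := hne x hx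
      simpa using hstd (j + 1))
    obtain ⟨j, hj⟩ := hne a (hall a)
    exact ha j hj
  obtain ⟨c, ⟨b, hb, hi, hh⟩, hc⟩ := this
  exact ⟨b, hb, hi, fun i => ⟨(hh i).1, ns_of_le h hc (hh i).2.le⟩⟩

/-- a strongly generic set off a reserved set `Z`, separating shifted columns -/
lemma exists_gen [Countable M] (Z : Set M) (a : M)
    (hZ : ∀ n : ℕ, 1 ≤ n → ∀ D : Set (Fin n → M),
      @Set.Definable M Set.univ LPA (arith M) (Fin n) D → ∀ B ⊆ D, Spread B →
      ∀ F : Set M, F.Finite → ∃ b ∈ D, Function.Injective b ∧ ∀ i, b i ∉ F ∧ b i ∉ Z) :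
    ∃ X0 : Set M, (∀ X : Set M, (∀ x, x ∉ Z → (x ∈ X ↔ x ∈ X0)) → SG (arith M) X) ∧
      ∀ m m' : M, m ≠ m' → ∃ k : ℕ, a + m + k ∈ X0 ∧ a + m' + k ∉ X0 := by
  letI := arith M
  let R := (Σ n : ℕ, LPA.Formula ((Set.univ : Set M) ⊕ Fin n) × Set (Fin n)) ⊕ (M × M)
  let G : R → Set M → Set M → Prop := fun r P Q => match r with
    | Sum.inl ⟨n, φ, I⟩ => (1 ≤ n ∧ ∃ B ⊆ {v : Fin n → M | φ.Realize (Sum.elim Subtype.val v)}, Spread B) →
        ∃ b ∈ {v : Fin n → M | φ.Realize (Sum.elim Subtype.val v)}, ∀ i, b i ∉ Z ∧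
          (i ∈ I → b i ∈ P) ∧ (i ∉ I → b i ∈ Q)
    | Sum.inr (m, m') => m ≠ m' → ∃ k : ℕ, a + m + k ∈ P ∧ a + m' + k ∈ Q
  obtain ⟨X0, hX0⟩ := meet G (by
    rintro (⟨n, φ, I⟩ | ⟨m, m'⟩) F hF
    · by_cases hc : 1 ≤ n ∧ ∃ B ⊆ {v : Fin n → M | φ.Realize (Sum.elim Subtype.val v)}, Spread B
      · obtain ⟨hn, B, hBD, hB⟩ := hc
        obtain ⟨b, hb, hi, hh⟩ := hZ n hn _
          (Set.definable_iff_exists_formula_sum.2 ⟨φ, rfl⟩) B hBD hB F hF
        refine ⟨b '' I, b '' Iᶜ, (Set.toFinite _).image _, (Set.toFinite _).image _, ?_, ?_, ?_,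
          fun _ => ⟨b, hb, fun i => ⟨(hh i).2, fun h => ⟨i, h, rfl⟩, fun h => ⟨i, h, rfl⟩⟩⟩⟩
        · rw [Set.disjoint_left]; rintro _ ⟨i, _, rfl⟩; exact (hh i).1
        · rw [Set.disjoint_left]; rintro _ ⟨i, _, rfl⟩; exact (hh i).1
        · exact Set.disjoint_image_of_injective hi disjoint_compl_right
      · exact ⟨∅, ∅, Set.finite_empty, Set.finite_empty, by simp, by simp, by simp,
          fun h => (hc h).elim⟩
    · by_cases hm : m = m'
      · exact ⟨∅, ∅, Set.finite_empty, Set.finite_empty, by simp, by simp, by simp,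
          fun h => (h hm).elim⟩
      · have inj : ∀ x : M, Function.Injective fun k : ℕ => x + (k : M) := fun x k l hkl =>
          Nat.cast_injective (add_left_cancel hkl)
        have h1 := (hF.preimage (inj (a + m)).injOn).union (hF.preimage (inj (a + m')).injOn)
        obtain ⟨k, hk⟩ := h1.exists_notMem
        simp only [Set.mem_union, Set.mem_preimage, not_or] at hk
        refine ⟨{a + m + k}, {a + m' + k}, Set.finite_singleton _, Set.finite_singleton _,
          by simpa using hk.1, by simpa using hk.2, ?_, fun _ => ⟨k, rfl, rfl⟩⟩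
        simp only [Set.disjoint_singleton, ne_eq]
        intro hh
        exact hm (add_left_cancel (add_right_cancel hh)))
  refine ⟨X0, fun X hX n hn D hD hB I => ?_, fun m m' hm => ?_⟩
  · obtain ⟨φ, rfl⟩ := Set.definable_iff_exists_formula_sum.1 hD
    obtain ⟨P, Q, hG, hP, hQ⟩ := hX0 (Sum.inl ⟨n, φ, I⟩)
    obtain ⟨b, hb, hh⟩ := hG ⟨hn, hB⟩
    refine ⟨b, hb, fun i => ?_⟩
    rw [hX _ (hh i).1]
    refine ⟨fun hx => ?_, fun hi => hP ((hh i).2.1 hi)⟩
    by_contra hi
    exact Set.disjoint_left.1 hQ ((hh i).2.2 hi) hx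
  · obtain ⟨P, Q, hG, hP, hQ⟩ := hX0 (Sum.inr (m, m'))
    obtain ⟨k, h1, h2⟩ := hG hm
    exact ⟨k, hP h1, Set.disjoint_left.1 hQ h2⟩

/-- in a strongly generic elementary extension, coded elements are standard -/
lemma coded_ext (h : IsPA M) {X : Set M} {N : Type} (S : LPA.Structure N) {Y : Set N}
    (f : @ElementaryEmbedding (LPA.sum LU) M N (expand (arith M) X) (expand S Y))
    (hY : SG S Y) {c : N} (hc : Coded Y c) : ∃ k : ℕ, c = f (k : M) := by
  letI := expand (arith M) X
  letI := expand S Y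
  have tr : ∀ {α : Type} (φ : LPA.Formula α) (x : α → M),
      @Formula.Realize LPA M (arith M) α φ x → φ.Realize (f ∘ x) := by
    intro α φ x hx
    rw [← r_lf (S := S) _ Y, f.map_formula, r_lf (S := arith M) _ X]
    exact hx
  by_contra hne
  push Not at hne
  have hlt : ∀ k : ℕ, lt (f (k : M)) c := by
    intro k
    induction k with
    | zero =>
      have := tr (Formula.iAlls Unit (Term.equal vn (up (Term.var ())) ⊔ fl (up (Term.var ())) vn))
        (fun _ : Unit => ((0 : ℕ) : M)) (by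
          letI := arith M
          simp only [Formula.realize_iAlls, Formula.realize_sup, Formula.realize_equal, r_fl, r_up,
            r_vn, Term.realize_var]
          intro i
          rcases (h.nonneg (i ())).lt_or_eq with h0 | h0
          · right; show ((0 : ℕ) : M) < i (); simpa using h0
          · left; simp [← h0])
      simp only [Formula.realize_iAlls, Formula.realize_sup, Formula.realize_equal, r_fl, r_up,
        r_vn, Term.realize_var] at this
      rcases this (fun _ => c) with h0 | h0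
      · exact (hne 0 h0).elim
      · exact h0
    | succ k ih =>
      have := tr (Formula.iAlls Unit ((fl (up (Term.var false)) vn).imp
        (Term.equal vn (up (Term.var true)) ⊔ fl (up (Term.var true)) vn)))
        (fun b : Bool => if b then ((k + 1 : ℕ) : M) else (k : M)) (by
          letI := arith M
          simp only [Formula.realize_iAlls, Formula.realize_imp, Formula.realize_sup,
            Formula.realize_equal, r_fl, r_up, r_vn, Term.realize_var]
          intro i hi
          have hi' : (k : M) < i () := hi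
          rcases (lt_succ h hi').lt_or_eq with h0 | h0
          · right; show ((k + 1 : ℕ) : M) < i (); simpa using h0
          · left; simp [← h0])
      simp only [Formula.realize_iAlls, Formula.realize_imp, Formula.realize_sup,
        Formula.realize_equal, r_fl, r_up, r_vn, Term.realize_var] at this
      rcases this (fun _ => c) ih with h0 | h0
      · exact (hne (k + 1) h0).elim
      · exact h0
  have hinj : Function.Injective fun k : ℕ => f (k : M) :=
    f.injective.comp Nat.cast_injective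
  exact Set.infinite_of_injective_forall_mem hinj hlt (coded_finite hY hc)

lemma pr_inj {n k n' k' : ℕ} (h : (n + k) * (n + k) + k = (n' + k') * (n' + k') + k') :
    n = n' ∧ k = k' := by
  have : n + k = n' + k' := by
    rcases lt_trichotomy (n + k) (n' + k') with h1 | h1 | h1
    · nlinarith
    · exact h1
    · nlinarith
  rw [this] at h
  omega

lemma main [Countable M] (h : IsPA M) : ∃ X : Set M, SG (arith M) X ∧
    ∀ (N : Type) (S : LPA.Structure N) (Y : Set N)
      (f : @ElementaryEmbedding (LPA.sum LU) M N (expand (arith M) X) (expand S Y)),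
      SG S Y → Function.Surjective f := by
  by_cases hstd : ∀ a : M, ∃ j : ℕ, a = j
  · obtain ⟨X, hX, -⟩ := exists_gen (M := M) ∅ 0 (fun n _ D _ B hBD hB F hF => by
      obtain ⟨b, hb, hbF⟩ := avoid hB hF
      exact ⟨b, hBD hb, hB.2.1 b hb, fun i => ⟨hbF i, id⟩⟩)
    refine ⟨X, hX X (fun _ _ => Iff.rfl), fun N S Y f hY c => ?_⟩
    letI := expand (arith M) X
    letI := expand S Y
    have := (f.map_formula (Formula.iAlls Unit (fcod (vn : LPA.Term (Empty ⊕ Unit))))
      Empty.elim).2 (by
        rw [Formula.realize_iAlls]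
        intro i
        rw [r_fcod (S := arith M)]
        obtain ⟨j, hj⟩ := hstd (i ())
        have := coded_std h X j
        rw [← hj] at this
        exact this)
    rw [Formula.realize_iAlls] at this
    have h2 := this (fun _ => c)
    rw [r_fcod (S := S)] at h2
    obtain ⟨k, hk⟩ := coded_ext h S f hY h2
    exact ⟨_, hk.symm⟩
  · push Not at hstd
    obtain ⟨a, ha⟩ := hstd
    obtain ⟨X0, hX0, hsep⟩ := exists_gen (M := M) (Set.range (Nat.cast : ℕ → M)) a
      (fun n hn D hD B hBD hB F hF => by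
        obtain ⟨b, hb, hi, hh⟩ := overspill h ha hn hD hBD hB hF
        exact ⟨b, hb, hi, fun i => ⟨(hh i).1, fun ⟨j, hj⟩ => (hh i).2 j hj.symm⟩⟩)
    obtain ⟨e, he⟩ := exists_surjective_nat M
    let X : Set M := {x | (x ∉ Set.range (Nat.cast : ℕ → M) ∧ x ∈ X0) ∨
      ∃ n k : ℕ, x = (((n + k) * (n + k) + k : ℕ) : M) ∧ a + e n + k ∈ X0}
    have hXZ : ∀ x, x ∉ Set.range (Nat.cast : ℕ → M) → (x ∈ X ↔ x ∈ X0) := by
      intro x hx
      refine ⟨?_, fun hh => Or.inl ⟨hx, hh⟩⟩
      rintro (hh | ⟨n, k, rfl, -⟩)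
      · exact hh.2
      · exact (hx ⟨_, rfl⟩).elim
    have hSG := hX0 X hXZ
    have hns : ∀ m : M, ∀ k : ℕ, a + m + k ∈ X ↔ a + m + k ∈ X0 := by
      intro m k
      refine hXZ _ ?_
      rintro ⟨j, hj⟩
      refine ns_of_le h ha ?_ j hj.symm
      rw [add_assoc]
      exact le_add_of_nonneg_right (h.nonneg _)
    have hcs : ∀ c : M, Coded (S := arith M) X c → ∃ k : ℕ, c = k := fun c hc =>
      coded_ext h (arith M) (@ElementaryEmbedding.refl _ M (expand (arith M) X)) hSG hc
    have hcol : ∀ n : ℕ, Col (S := arith M) X a n (e n) := by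
      intro n c hc
      obtain ⟨k, rfl⟩ := hcs c hc
      show ((n : M) + k) * ((n : M) + k) + k ∈ X ↔ a + e n + k ∈ X
      rw [hns]
      have : ((n : M) + k) * ((n : M) + k) + k = (((n + k) * (n + k) + k : ℕ) : M) := by
        push_cast; rfl
      rw [this]
      refine ⟨?_, fun hh => Or.inr ⟨n, k, rfl, hh⟩⟩
      rintro (hh | ⟨n', k', h1, h2⟩)
      · exact (hh.1 ⟨_, rfl⟩).elim
      · obtain ⟨rfl, rfl⟩ := pr_inj (Nat.cast_injective h1)
        exact h2
    have huniq : ∀ n m m' : M, Col (S := arith M) X a n m → Col (S := arith M) X a n m' →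
        m = m' := by
      intro n m m' h1 h2
      by_contra hne
      obtain ⟨k, hk1, hk2⟩ := hsep m m' hne
      have h3 := ((h1 k (coded_std h X k)).symm.trans (h2 k (coded_std h X k)))
      exact hk2 ((hns m' k).1 (h3.1 ((hns m k).2 hk1)))
    refine ⟨X, hSG, fun N S Y f hY c => ?_⟩
    letI := expand (arith M) X
    letI := expand S Y
    have hA := (f.map_formula (Formula.iAlls Unit (Formula.iExs Unit
      (fcod vn ⊓ fcol (up (up (Term.var ()))) vn (up vn)))) (fun _ : Unit => a)).2 (by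
        letI := arith M
        simp only [Formula.realize_iAlls, Formula.realize_iExs, Formula.realize_inf,
          r_fcod (S := arith M), r_fcol (S := arith M), r_up, r_vn, Term.realize_var]
        intro i
        obtain ⟨n, hn⟩ := he (i ())
        exact ⟨fun _ => n, coded_std h X n, hn ▸ hcol n⟩)
    simp only [Formula.realize_iAlls, Formula.realize_iExs, Formula.realize_inf,
      r_fcod (S := S), r_fcol (S := S), r_up, r_vn, Term.realize_var] at hA
    obtain ⟨n, hn1, hn2⟩ := hA (fun _ => c)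
    obtain ⟨k, hk⟩ := coded_ext h S f hY hn1
    have hB := (f.map_formula (Formula.iAlls Unit
      ((fcol (up (Term.var (0 : Fin 3))) (up (Term.var 1)) vn).imp
        (lf (Term.equal vn (up (Term.var 2)))))) ![a, k, e k]).2 (by
        letI := arith M
        simp only [Formula.realize_iAlls, Formula.realize_imp, r_lf (S := arith M),
          Formula.realize_equal, r_fcol (S := arith M), r_up, r_vn, Term.realize_var]
        intro i hi
        exact huniq _ _ _ hi (hcol k))
    simp only [Formula.realize_iAlls, Formula.realize_imp, r_lf (S := S),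
      Formula.realize_equal, r_fcol (S := S), r_up, r_vn, Term.realize_var] at hB
    exact ⟨e k, (hB (fun _ => c) (by rw [hk] at hn2; exact hn2)).symm⟩
end M

theorem result : IsPA ℕ ∧
    ∀ (M : Type) [CommSemiring M] [LinearOrder M] [IsStrictOrderedRing M] [Countable M],
      IsPA M → ∃ X : Set M, SG (arith M) X ∧
        ∀ (N : Type) (S : LPA.Structure N) (Y : Set N)
          (f : @ElementaryEmbedding (LPA.sum LU) M N (expand (arith M) X) (expand S Y)),
          ¬ Function.Surjective f → ¬ SG S Y := by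
  refine ⟨⟨Nat.zero_le, fun x hx => hx, fun x y h => ⟨y - x, by omega⟩,
    fun E _ h0 hs x => Nat.rec h0 hs x⟩, fun M _ _ _ _ h => ?_⟩
  obtain ⟨X, h1, h2⟩ := main h
  exact ⟨X, h1, fun N S Y f hf hY => hf (h2 N S Y f hY)⟩

end Pool.Agent.Results.MP_486437_lc.NoExtension
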